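import Pool.Agent.TH706.CD.Xor
import Pool.Agent.TH706.LS.Sub

set_option autoImplicit false
set_option linter.unusedSectionVars false

/-!
# The parity of the number of edges induced by a set, and a generator
-/

open Finset

namespace Pool.Agent.TH706.GR

open Pool.Agent.H554R2.Sem Pool.Agent.H554R2.Coin Pool.Agent.H554R2.Rnd Pool.Agent.H554R2.NC
open Pool.Agent.W896.PD (PP Act)
open Pool.Agent.W895.PC (sgp abs_sgp par sgp_par)
open Pool.Agent.TH706.CD

/-- The parity of the number of pairs `(v, w)` in `E` with `x v = x w = 1`. -/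
def edgePar {n : ℕ} (E : Finset (Fin n × Fin n)) (x : Fin n → Bool) : Bool :=
  decide (Odd (E.filter (fun p => x p.1 = true ∧ x p.2 = true)).card)

theorem sgn_xor (a b : Bool) : sgn (xor a b) = sgn a * sgn b := by
  cases a <;> cases b <;> simp [sgn]

theorem sgn_inj {a b : Bool} (h : sgn a = sgn b) : a = b := by
  cases a <;> cases b <;> simp [sgn] at h ⊢ <;> omega

theorem edge_symm {n : ℕ} (E F : Finset (Fin n × Fin n)) (x : Fin n → Bool) :
    sgn (edgePar (symmDiff E F) x) = sgn (edgePar E x) * sgn (edgePar F x) := by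
  rw [← sgn_xor]
  congr 1
  unfold edgePar
  obtain ⟨a, ha⟩ : ∃ a, a = E.filter (fun p => x p.1 = true ∧ x p.2 = true) := ⟨_, rfl⟩
  obtain ⟨b, hb⟩ : ∃ b, b = F.filter (fun p => x p.1 = true ∧ x p.2 = true) := ⟨_, rfl⟩
  have h1 : (symmDiff E F).filter (fun p => x p.1 = true ∧ x p.2 = true) = symmDiff a b := by
    ext p
    rw [ha, hb]
    simp only [Finset.mem_filter, Finset.mem_symmDiff]
    tauto
  rw [h1, ← ha, ← hb]
  have h2 : (symmDiff a b).card + 2 * (a ∩ b).card = a.card + b.card := by
    have e1 : (symmDiff a b) = (a \ b) ∪ (b \ a) := rfl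
    rw [e1, Finset.card_union_of_disjoint (by
      rw [Finset.disjoint_left]
      intro p hp hp'
      rw [Finset.mem_sdiff] at hp hp'
      exact hp.2 hp'.1)]
    have e2 := Finset.card_sdiff_add_card_inter a b
    have e3 := Finset.card_sdiff_add_card_inter b a
    rw [Finset.inter_comm b a] at e3
    omega
  have h3 : Odd (symmDiff a b).card ↔ ¬ (Odd a.card ↔ Odd b.card) := by
    have h4 : Odd (symmDiff a b).card ↔ Odd ((symmDiff a b).card + 2 * (a ∩ b).card) := by
      constructor
      · exact fun h => h.add_even (even_two_mul _)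
      · intro h
        rcases Nat.even_or_odd (symmDiff a b).card with h5 | h5
        · exact absurd (h5.add (even_two_mul _)) (Nat.not_even_iff_odd.2 h)
        · exact h5
    rw [h4, h2, Nat.odd_add, ← Nat.not_odd_iff_even]
    tauto
  by_cases h5 : Odd a.card <;> by_cases h6 : Odd b.card <;> simp [h3, h5, h6]

theorem edge_empty {n : ℕ} (x : Fin n → Bool) : sgn (edgePar (∅ : Finset (Fin n × Fin n)) x) = 1 := by
  simp [edgePar, sgn]

/-- products of signs are signs of edge parities -/
theorem edge_prod {n : ℕ} {ι : Type} [DecidableEq ι] (E : ι → Finset (Fin n × Fin n)) (B : ℕ)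
    (hB : ∀ j, (E j).card ≤ B) (u : Finset ι) :
    ∃ F : Finset (Fin n × Fin n), F.card ≤ u.card * B ∧
      ∀ x, sgn (edgePar F x) = ∏ j ∈ u, sgn (edgePar (E j) x) := by
  induction u using Finset.induction_on with
  | empty => exact ⟨∅, by simp, fun x => by rw [edge_empty, Finset.prod_empty]⟩
  | insert j u hj ih =>
    obtain ⟨F, h1, h2⟩ := ih
    refine ⟨symmDiff (E j) F, ?_, fun x => ?_⟩
    · have e1 : (symmDiff (E j) F).card ≤ (E j).card + F.card := by
        have : symmDiff (E j) F ⊆ E j ∪ F := by
          intro p hp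
          rw [Finset.mem_symmDiff] at hp
          rw [Finset.mem_union]
          tauto
        exact (Finset.card_le_card this).trans (Finset.card_union_le _ _)
      rw [Finset.card_insert_of_notMem hj]
      have := hB j
      nlinarith
    · rw [edge_symm, h2, Finset.prod_insert hj]

theorem sq_le_pow (a : ℕ) : a * a ≤ 2 * 2 ^ a := by
  induction a with
  | zero => simp
  | succ a ih =>
    rcases Nat.lt_or_ge a 3 with h | h
    · interval_cases a <;> norm_num
    · rw [pow_succ]
      nlinarith

/-- the edges of a form -/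
def formEdges {n G : ℕ} (π : Fin n → Fin G) (h : Fin n → Fin n → Bool) : Finset (Fin n × Fin n) :=
  univ.filter (fun p => π p.1 = π p.2 ∧ h p.1 p.2 = true)

theorem form_edges {n G : ℕ} (π : Fin n → Fin G) (h : Fin n → Fin n → Bool) (x : Pt n) :
    qr π h x = edgePar (formEdges π h) x := by
  unfold qr edgePar formEdges
  rw [Finset.filter_filter]
  congr 3
  ext p
  simp only [Finset.mem_filter, Finset.mem_univ, true_and]
  tauto

theorem form_card {n G : ℕ} (π : Fin n → Fin G) (h : Fin n → Fin n → Bool) :
    (formEdges π h).card ≤ 2 * ∑ g, 2 ^ (univ.filter (fun v => π v = g)).card := by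
  classical
  have h1 : formEdges π h ⊆ (univ : Finset (Fin G)).biUnion (fun g =>
      (univ.filter (fun v => π v = g)) ×ˢ (univ.filter (fun v => π v = g))) := by
    intro p hp
    rw [formEdges, Finset.mem_filter] at hp
    rw [Finset.mem_biUnion]
    refine ⟨π p.1, Finset.mem_univ _, ?_⟩
    rw [Finset.mem_product, Finset.mem_filter, Finset.mem_filter]
    exact ⟨⟨Finset.mem_univ _, rfl⟩, Finset.mem_univ _, hp.2.1.symm⟩
  refine (Finset.card_le_card h1).trans (Finset.card_biUnion_le.trans ?_)
  rw [Finset.mul_sum]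
  refine Finset.sum_le_sum fun g _ => ?_
  rw [Finset.card_product]
  exact sq_le_pow _

theorem sgp_xor {J : ℕ} (u : Finset (Fin J)) (w m : Fin J → Bool) :
    sgp u (fun j => xor (w j) (m j)) = sgp u w * sgp u m := by
  unfold sgp
  rw [← Finset.prod_mul_distrib]
  exact Finset.prod_congr rfl fun j _ => sgn_xor _ _

theorem sgn_par {J : ℕ} (z : Fin J → Bool) : sgn (par z) = sgp univ z := by
  rw [sgp_par]
  rfl

theorem par_xor {J : ℕ} (w m : Fin J → Bool) :
    par (fun j => xor (w j) (m j)) = xor (par w) (par m) := by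
  apply sgn_inj
  rw [sgn_par, sgp_xor, sgn_xor, sgn_par, sgn_par]

end Pool.Agent.TH706.GR
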