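import Pool.Agent.TH706.GR.Base

set_option autoImplicit false
set_option linter.unusedSectionVars false

/-!
# A generator which fools programs with a stack and linearly many reads
-/

open Finset

namespace Pool.Agent.TH706.GR

open Pool.Agent.H554R2.Sem Pool.Agent.H554R2.Coin Pool.Agent.H554R2.Rnd Pool.Agent.H554R2.NC
open Pool.Agent.W896.PD (PP Act)
open Pool.Agent.W895.PC (sgp abs_sgp par sgp_par)
open Pool.Agent.TH706.CD
open Pool.Agent.H822R5.LN (sub)
open Pool.Agent.TH706.LS (prog comp_iff)

variable {L J : ℕ}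

/-- the bits of the generator as functions of the forms -/
def gout (L J : ℕ) (z : Fin (J * (L + 1)) → Bool) (i : Fin J) : Bool :=
  par (fun a : Fin (L + 1) => z (finProdFinEquiv (i, a)))

theorem gout_xor (w m : Fin (J * (L + 1)) → Bool) :
    gout L J (fun j => xor (w j) (m j)) = fun i => xor (gout L J w i) (gout L J m i) := by
  funext i
  exact par_xor _ _

/-- unit vector -/
def ev {N : ℕ} (A : Fin N) (j : Fin N) : Bool := decide (j = A)

theorem sgp_ev {N : ℕ} (u : Finset (Fin N)) (A : Fin N) :
    sgp u (ev A) = if A ∈ u then -1 else 1 := by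
  unfold sgp ev
  have h : ∀ j : Fin N, sgn (decide (j = A)) = if j = A then -1 else 1 := by
    intro j
    simp [sgn]
  simp only [h]
  rw [Finset.prod_ite_eq']

theorem gout_ev (i : Fin J) (a : Fin (L + 1)) :
    gout L J (ev (finProdFinEquiv (i, a))) = ev i := by
  funext i'
  apply sgn_inj
  unfold gout
  rw [sgn_par]
  by_cases h : i' = i
  · subst h
    have h1 : (fun a' : Fin (L + 1) => ev (finProdFinEquiv (i', a)) (finProdFinEquiv (i', a'))) =
        ev a := by
      funext a'
      unfold ev
      congr 1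
      rw [EmbeddingLike.apply_eq_iff_eq, Prod.mk.injEq]
      simp
    rw [h1, sgp_ev]
    simp [ev, sgn]
  · have h1 : (fun a' : Fin (L + 1) => ev (finProdFinEquiv (i, a)) (finProdFinEquiv (i', a'))) =
        fun _ => false := by
      funext a'
      unfold ev
      rw [decide_eq_false_iff_not, EmbeddingLike.apply_eq_iff_eq, Prod.mk.injEq]
      exact fun h2 => h h2.1
    rw [h1]
    simp [ev, sgp, sgn, h]

/-- the xor with a vector -/
def tr {N : ℕ} (m : Fin N → Bool) : Equiv.Perm (Fin N → Bool) :=
  Function.Involutive.toPerm (fun w j => xor (w j) (m j)) (by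
    intro w
    funext j
    show xor (xor (w j) (m j)) (m j) = w j
    cases w j <;> cases m j <;> rfl)

theorem tr_apply {N : ℕ} (m w : Fin N → Bool) : tr m w = fun j => xor (w j) (m j) := rfl

theorem tr_eq {N : ℕ} (m w y : Fin N → Bool) : tr m w = y ↔ w = tr m y := by
  constructor
  · rintro rfl
    funext j
    simp [tr_apply]
  · rintro rfl
    funext j
    simp [tr_apply]

theorem gout_surj (y : Fin J → Bool) : ∃ m, gout L J m = y := by
  refine ⟨fun j => decide ((finProdFinEquiv.symm j).2 = (0 : Fin (L + 1))) &&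
    y (finProdFinEquiv.symm j).1, ?_⟩
  funext i
  apply sgn_inj
  unfold gout
  rw [sgn_par]
  unfold sgp
  rw [Finset.prod_eq_single (0 : Fin (L + 1))]
  · simp
  · intro b _ hb
    simp [hb, sgn]
  · intro h
    exact absurd (Finset.mem_univ _) h

/-- all values of the generator are equally frequent -/
theorem fibre (y : Fin J → Bool) :
    (univ.filter (fun w : Fin (J * (L + 1)) → Bool => gout L J w = y)).card * 2 ^ J =
      2 ^ (J * (L + 1)) := by
  classical
  have h1 : ∀ y', (univ.filter (fun w : Fin (J * (L + 1)) → Bool => gout L J w = y')).card =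
      (univ.filter (fun w : Fin (J * (L + 1)) → Bool => gout L J w = y)).card := by
    intro y'
    obtain ⟨m, hm⟩ := gout_surj (L := L) (fun i => xor (y i) (y' i))
    apply Finset.card_bij (fun w _ => tr m w)
    · intro w hw
      rw [Finset.mem_filter] at hw ⊢
      refine ⟨Finset.mem_univ _, ?_⟩
      rw [tr_apply, gout_xor, hw.2, hm]
      funext i
      show xor (y' i) (xor (y i) (y' i)) = y i
      cases y i <;> cases y' i <;> rfl
    · intro a _ b _ h
      exact (tr m).injective h
    · intro b hb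
      refine ⟨tr m b, ?_, ?_⟩
      · rw [Finset.mem_filter] at hb ⊢
        refine ⟨Finset.mem_univ _, ?_⟩
        rw [tr_apply, gout_xor, hb.2, hm]
        funext i
        show xor (y i) (xor (y i) (y' i)) = y' i
        cases y i <;> cases y' i <;> rfl
      · exact (tr_eq m (tr m b) b).2 rfl
  have h2 : (univ : Finset (Fin (J * (L + 1)) → Bool)).card =
      ∑ y' : Fin J → Bool, (univ.filter (fun w => gout L J w = y')).card :=
    Finset.card_eq_sum_card_fiberwise (fun _ _ => Finset.mem_univ _)
  simp only [h1] at h2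
  rw [Finset.sum_const, Finset.card_univ, Finset.card_univ, Fintype.card_fun, Fintype.card_fun,
    Fintype.card_bool, Fintype.card_fin, Fintype.card_fin, smul_eq_mul] at h2
  rw [mul_comm]
  exact h2.symm

/-- the indicator of a value of the generator, minus its expectation -/
noncomputable def lam (L J : ℕ) (y : Fin J → Bool) (w : Fin (J * (L + 1)) → Bool) : ℝ :=
  (if gout L J w = y then 1 else 0) - 1 / 2 ^ J

theorem lam_abs (y : Fin J → Bool) (w : Fin (J * (L + 1)) → Bool) : |lam L J y w| ≤ 1 := by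
  unfold lam
  have h1 : (0 : ℝ) < 1 / 2 ^ J := by positivity
  have h2 : (1 : ℝ) / 2 ^ J ≤ 1 := by
    rw [div_le_one (by positivity)]
    exact one_le_pow₀ (by norm_num)
  split_ifs
  · rw [abs_le]
    constructor <;> linarith
  · rw [abs_le]
    constructor <;> linarith

theorem lam_dual (y : Fin J → Bool) (u : Finset (Fin (J * (L + 1)))) (hu : u.card ≤ L) :
    ∑ w, lam L J y w * sgp u w = 0 := by
  classical
  rcases u.eq_empty_or_nonempty with rfl | ⟨A, hA⟩
  · have h1 : ∀ w : Fin (J * (L + 1)) → Bool, ((sgp ∅ w : ℤ) : ℝ) = 1 := by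
      intro w
      simp [sgp]
    simp only [h1, mul_one]
    unfold lam
    rw [Finset.sum_sub_distrib, Finset.sum_boole, Finset.sum_const, nsmul_eq_mul, Finset.card_univ,
      Fintype.card_fun, Fintype.card_bool, Fintype.card_fin]
    have h2 := fibre (L := L) y
    have h3 : ((univ.filter (fun w : Fin (J * (L + 1)) → Bool => gout L J w = y)).card : ℝ) *
        2 ^ J = 2 ^ (J * (L + 1)) := by exact_mod_cast h2
    push_cast
    rw [← h3]
    field_simp
    ring
  · obtain ⟨⟨i, a⟩, rfl⟩ := finProdFinEquiv.surjective A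
    obtain ⟨b, hb⟩ : ∃ b : Fin (L + 1), finProdFinEquiv (i, b) ∉ u := by
      by_contra hcon
      push Not at hcon
      have h1 : (univ : Finset (Fin (L + 1))).card ≤ u.card :=
        Finset.card_le_card_of_injOn (fun b => finProdFinEquiv (i, b)) (fun b _ => hcon b) (by
          intro b _ b' _ h
          have := finProdFinEquiv.injective h
          rw [Prod.mk.injEq] at this
          exact this.2)
      rw [Finset.card_univ, Fintype.card_fin] at h1
      omega
    obtain ⟨m, hm⟩ : ∃ m : Fin (J * (L + 1)) → Bool, m = fun j =>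
        xor (ev (finProdFinEquiv (i, a)) j) (ev (finProdFinEquiv (i, b)) j) := ⟨_, rfl⟩
    have hgm : gout L J m = fun _ => false := by
      rw [hm, gout_xor, gout_ev, gout_ev]
      funext i'
      cases ev i i' <;> rfl
    have hsm : sgp u m = -1 := by
      rw [hm, sgp_xor, sgp_ev, sgp_ev, if_pos hA, if_neg hb]
      norm_num
    have h1 : ∑ w, lam L J y w * sgp u w = ∑ w, lam L J y (tr m w) * sgp u (tr m w) :=
      (Equiv.sum_comp (tr m) (fun w => lam L J y w * ((sgp u w : ℤ) : ℝ))).symm
    have h2 : ∀ w, lam L J y (tr m w) * ((sgp u (tr m w) : ℤ) : ℝ) =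
        -(lam L J y w * ((sgp u w : ℤ) : ℝ)) := by
      intro w
      have e1 : lam L J y (tr m w) = lam L J y w := by
        unfold lam
        rw [tr_apply, gout_xor, hgm]
        have : (fun i => xor (gout L J w i) false) = gout L J w := by
          funext i
          exact Bool.xor_false _
        rw [this]
      have e2 : sgp u (tr m w) = - sgp u w := by
        rw [tr_apply, sgp_xor, hsm]
        ring
      rw [e1, e2]
      push_cast
      ring
    simp only [h2, Finset.sum_neg_distrib] at h1
    linarith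

/-- the substitution of the bits `y` for the last `J` variables -/
def sb {n J : ℕ} (y : Fin J → Bool) : Fin (n + J) → Fin n ⊕ Bool :=
  Fin.addCases (fun v => Sum.inl v) (fun i => Sum.inr (y i))

theorem sub_sb {n J : ℕ} (y : Fin J → Bool) (x : Pt n) : sub (sb y) x = Fin.append x y := by
  funext j
  refine Fin.addCases (fun v => ?_) (fun i => ?_) j
  · simp [sub, sb]
  · simp [sub, sb]

open Classical in
/-- **The generator.** -/
theorem generator (k : ℕ) : ∃ D : ℕ, 2 ≤ D ∧ ∀ n J : ℕ, D * (J + 1) ≤ n →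
    ∃ E : Fin J → Finset (Fin n × Fin n), (∀ i, (E i).card ≤ D * (J + 1) * n) ∧
      ∀ S : ℕ, n ≤ 2 ^ S → D * S * J ≤ n → ∀ τ ≤ k * (n + J), ∀ P : PP (Fin (n + J)) Bool,
        Fintype.card P.State ≤ 2 ^ S → ∀ c : Bool,
        |((univ.filter (fun x : Pt n =>
            OutIn P τ c (Fin.append x (fun i => edgePar (E i) x)))).card : ℝ) / 2 ^ n -
          ((univ.filter (fun z : Pt (n + J) => OutIn P τ c z)).card : ℝ) / 2 ^ (n + J)| ≤
        1 / 2 ^ (n / (D * S)) := by
  classical
  obtain ⟨L, C, hL, hC, hlift⟩ := lift (2 * k) 1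
  obtain ⟨D, hD⟩ : ∃ D : ℕ, D = 2 * C * (L + 1) * (L + 1) + C * (L + 3) + 2 := ⟨_, rfl⟩
  refine ⟨D, by omega, fun n J hn => ?_⟩
  have hJ1 : J * (L + 1) + 1 ≤ (L + 1) * (J + 1) := by nlinarith
  have hCn : C * (J * (L + 1) + 1) ≤ n := by
    refine le_trans ?_ hn
    calc C * (J * (L + 1) + 1) ≤ C * ((L + 1) * (J + 1)) := Nat.mul_le_mul_left _ hJ1
      _ = C * (L + 1) * (J + 1) := by ring
      _ ≤ D * (J + 1) := by
          apply Nat.mul_le_mul_right
          rw [hD]
          nlinarith
  have hn1 : 1 ≤ n := by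
    have h1 : 0 < D * (J + 1) := Nat.mul_pos (by omega) (by omega)
    omega
  obtain ⟨p, hp⟩ := hlift n (J * (L + 1)) hCn
  obtain ⟨G, π, h, hrep, hblk⟩ := hp.rep
  -- the graphs
  obtain ⟨B, hB⟩ : ∃ B, B = 2 * (C * (J * (L + 1) + 1) * n) := ⟨_, rfl⟩
  have hEj : ∀ j, (formEdges (π j) (h j)).card ≤ B := by
    intro j
    rw [hB]
    exact (form_card (π j) (h j)).trans (Nat.mul_le_mul_left _ (hblk j))
  have hE : ∀ i : Fin J, ∃ F : Finset (Fin n × Fin n), F.card ≤ (L + 1) * B ∧
      ∀ x, edgePar F x = gout L J (p x) i := by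
    intro i
    obtain ⟨F, h1, h2⟩ := edge_prod (fun a : Fin (L + 1) =>
      formEdges (π (finProdFinEquiv (i, a))) (h (finProdFinEquiv (i, a)))) B
      (fun a => hEj _) univ
    refine ⟨F, ?_, fun x => ?_⟩
    · rw [Finset.card_univ, Fintype.card_fin] at h1
      exact h1
    · apply sgn_inj
      rw [h2]
      unfold gout
      rw [sgn_par]
      unfold sgp
      refine Finset.prod_congr rfl fun a _ => ?_
      show _ = sgn (p x (finProdFinEquiv (i, a)))
      rw [hrep, form_edges]
  choose E hE1 hE2 using hE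
  refine ⟨E, fun i => (hE1 i).trans ?_, ?_⟩
  · rw [hB]
    calc (L + 1) * (2 * (C * (J * (L + 1) + 1) * n))
        ≤ (L + 1) * (2 * (C * ((L + 1) * (J + 1)) * n)) := by gcongr
      _ = (2 * C * (L + 1) * (L + 1)) * (J + 1) * n := by ring
      _ ≤ D * (J + 1) * n := by
          apply Nat.mul_le_mul_right
          apply Nat.mul_le_mul_right
          rw [hD]
          omega
  intro S hS hDS τ hτ P hP c
  have hS1 : 1 ≤ S := by
    by_contra h0
    have h1 : S = 0 := by omega
    subst h1
    have h2 : D * 1 ≤ D * (J + 1) := Nat.mul_le_mul_left _ (by omega)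
    have h3 : 2 ≤ D := by omega
    simp at hS
    omega
  have hJn : J ≤ n := by
    calc J ≤ J + 1 := Nat.le_succ _
      _ ≤ D * (J + 1) := Nat.le_mul_of_pos_left _ (by omega)
      _ ≤ n := hn
  have hτ2 : τ ≤ 2 * k * n := by
    refine hτ.trans ?_
    calc k * (n + J) ≤ k * (n + n) := Nat.mul_le_mul_left _ (by omega)
      _ = 2 * k * n := by ring
  obtain ⟨g, hg⟩ : ∃ g : Pt n → Fin J → Bool, g = fun x i => edgePar (E i) x := ⟨_, rfl⟩
  have hgo : ∀ x, g x = gout L J (p x) := by
    intro x
    rw [hg]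
    funext i
    exact hE2 i x
  obtain ⟨A, hA⟩ : ∃ A : (Fin J → Bool) → Finset (Pt n), A = fun y =>
    univ.filter (fun x => OutIn P τ c (Fin.append x y)) := ⟨_, rfl⟩
  obtain ⟨X, hX⟩ : ∃ X : ℝ, X = 2 ^ (n / (C * S)) := ⟨_, rfl⟩
  have hX0 : 0 < X := by rw [hX]; positivity
  have hy : ∀ y, |∑ x ∈ A y, lam L J y (p x)| * X ≤ 2 ^ n * 2 ^ (J * (L + 1)) := by
    intro y
    have h1 := hp.dual (lam L J y) (lam_dual y) S hS τ hτ2
      (fun _ => prog hn1 (sb y) P) (fun _ => c) (fun _ => hP) (A y) (by
        intro x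
        rw [hA]
        simp only [Finset.mem_filter, Finset.mem_univ, true_and]
        have h2 := comp_iff hn1 (sb y) P x c τ
        rw [sub_sb] at h2
        constructor
        · exact fun h3 _ => h2.2 h3
        · exact fun h3 => h2.1 (h3 0))
    rw [← hX] at h1
    refine h1.trans ?_
    apply mul_le_mul_of_nonneg_left _ (by positivity)
    refine (Finset.sum_le_sum fun w _ => lam_abs y w).trans (le_of_eq ?_)
    rw [Finset.sum_const, Finset.card_univ, Fintype.card_fun, Fintype.card_bool, Fintype.card_fin]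
    simp
  -- the two probabilities
  have hc1 : ((univ.filter (fun x : Pt n => OutIn P τ c (Fin.append x (g x)))).card : ℝ) =
      ∑ y, ∑ x ∈ A y, (if gout L J (p x) = y then (1 : ℝ) else 0) := by
    have e1 : ((univ.filter (fun x : Pt n => OutIn P τ c (Fin.append x (g x)))).card : ℝ) =
        ∑ x : Pt n, if OutIn P τ c (Fin.append x (g x)) then (1 : ℝ) else 0 := by
      rw [Finset.sum_boole]
    rw [e1, hA]
    simp only [Finset.sum_filter]
    rw [Finset.sum_comm]
    refine Finset.sum_congr rfl fun x _ => ?_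
    rw [Finset.sum_eq_single (g x)]
    · rw [← hgo x, if_pos rfl]
    · intro y _ hy
      rw [if_neg (c := gout L J (p x) = y) (fun h1 => hy (by rw [hgo x]; exact h1.symm))]
      simp
    · intro h1
      exact absurd (Finset.mem_univ _) h1
  have hc2 : ((univ.filter (fun z : Pt (n + J) => OutIn P τ c z)).card : ℝ) =
      ∑ y, ∑ _x ∈ A y, (1 : ℝ) := by
    have e1 : ((univ.filter (fun z : Pt (n + J) => OutIn P τ c z)).card : ℝ) =
        ∑ z : Pt (n + J), if OutIn P τ c z then (1 : ℝ) else 0 := by
      rw [Finset.sum_boole]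
    have e2 : ∑ z : Pt (n + J), (if OutIn P τ c z then (1 : ℝ) else 0) =
        ∑ xy : (Fin n → Bool) × (Fin J → Bool),
          if OutIn P τ c (Fin.append xy.1 xy.2) then (1 : ℝ) else 0 :=
      (Equiv.sum_comp (Fin.appendEquiv n J)
        (fun z : Pt (n + J) => if OutIn P τ c z then (1 : ℝ) else 0)).symm
    rw [e1, e2, Fintype.sum_prod_type, Finset.sum_comm, hA]
    simp only [Finset.sum_filter]
  have hdiff : ((univ.filter (fun x : Pt n => OutIn P τ c (Fin.append x (g x)))).card : ℝ) /
      2 ^ n - ((univ.filter (fun z : Pt (n + J) => OutIn P τ c z)).card : ℝ) / 2 ^ (n + J) =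
      (∑ y, ∑ x ∈ A y, lam L J y (p x)) / 2 ^ n := by
    rw [hc1, hc2]
    unfold lam
    simp only [Finset.sum_sub_distrib]
    have e3 : ∑ y : Fin J → Bool, ∑ _x ∈ A y, (1 : ℝ) / 2 ^ J =
        (∑ y : Fin J → Bool, ∑ _x ∈ A y, (1 : ℝ)) / 2 ^ J := by
      simp only [Finset.sum_const, nsmul_eq_mul, Finset.sum_div]
      refine Finset.sum_congr rfl fun y _ => ?_
      ring
    rw [e3, pow_add]
    field_simp
  have hfin : |(∑ y, ∑ x ∈ A y, lam L J y (p x)) / 2 ^ n| ≤ 2 ^ (J * (L + 2)) / X := by
    rw [abs_div, abs_of_pos (show (0 : ℝ) < 2 ^ n by positivity), div_le_div_iff₀ (by positivity)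
      hX0]
    calc |∑ y, ∑ x ∈ A y, lam L J y (p x)| * X
        ≤ (∑ y, |∑ x ∈ A y, lam L J y (p x)|) * X :=
          mul_le_mul_of_nonneg_right (Finset.abs_sum_le_sum_abs _ _) hX0.le
      _ = ∑ y, |∑ x ∈ A y, lam L J y (p x)| * X := by rw [Finset.sum_mul]
      _ ≤ ∑ _y : Fin J → Bool, 2 ^ n * 2 ^ (J * (L + 1)) := Finset.sum_le_sum fun y _ => hy y
      _ = 2 ^ (J * (L + 2)) * 2 ^ n := by
          rw [Finset.sum_const, Finset.card_univ, Fintype.card_fun, Fintype.card_bool,
            Fintype.card_fin, nsmul_eq_mul]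
          push_cast
          have : J * (L + 2) = J + J * (L + 1) := by ring
          rw [this, pow_add]
          ring
  have hg' : (fun x : Pt n => Fin.append x (fun i => edgePar (E i) x)) =
      fun x => Fin.append x (g x) := by rw [hg]
  have hgoal : |((univ.filter (fun x : Pt n => OutIn P τ c (Fin.append x (g x)))).card : ℝ) /
      2 ^ n - ((univ.filter (fun z : Pt (n + J) => OutIn P τ c z)).card : ℝ) / 2 ^ (n + J)| ≤
        1 / 2 ^ (n / (D * S)) := by
    rw [hdiff]
    refine hfin.trans ?_
    rw [div_le_div_iff₀ hX0 (by positivity), one_mul, ← pow_add, hX]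
    apply pow_le_pow_right₀ (by norm_num)
    obtain ⟨a, ha⟩ : ∃ a, a = n / (D * S) := ⟨_, rfl⟩
    have hDS0 : 0 < D * S := Nat.mul_pos (by omega) (by omega)
    have hJa : J ≤ a := by
      rw [ha, Nat.le_div_iff_mul_le hDS0]
      calc J * (D * S) = D * S * J := by ring
        _ ≤ n := hDS
    rw [← ha, Nat.le_div_iff_mul_le (Nat.mul_pos (by omega) (by omega))]
    have h1 : a * (D * S) ≤ n := by rw [ha]; exact Nat.div_mul_le_self _ _
    refine le_trans ?_ h1
    calc (J * (L + 2) + a) * (C * S) ≤ (a * (L + 2) + a) * (C * S) := by gcongr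
      _ = a * ((C * (L + 3)) * S) := by ring
      _ ≤ a * (D * S) := by
          apply Nat.mul_le_mul_left
          apply Nat.mul_le_mul_right
          rw [hD]
          omega
  rw [hg] at hgoal
  exact hgoal

end Pool.Agent.TH706.GR
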